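import Pool.Agent.R217.TF.Main

set_option autoImplicit false

namespace Pool.Agent.Results.MP_e83d7b_an.TameContactLine

open MeasureTheory Set Filter Topology

/-- The domain `D = {(x, t) : s(t) < x < s(t) + δ, 0 < t < T}`. -/
def Dom (s : ℝ → ℝ) (δ T : ℝ) : Set (ℝ × ℝ) :=
  {q | 0 < q.2 ∧ q.2 < T ∧ s q.2 < q.1 ∧ q.1 < s q.2 + δ}

/-- `(h, s)` is a classical solution, positive in `D`, of `h_t + (h^n h_xxx)_x = 0` in `D`,
`h = 0` on `x = s(t)`: `s` is continuous on `(0, T)`, `h` is continuous on the closure of `D` and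
positive in `D`, `h(s(t), t) = 0` for `0 < t < T`, the derivatives `d k = ∂_x^k h` (`k ≤ 4`) and
`ht = h_t` exist and are continuous in `D`, and the equation holds at every point of `D`. Nothing
else is required at the contact line. -/
structure Classical (n δ T : ℝ) (s : ℝ → ℝ) (h : ℝ → ℝ → ℝ) (d : ℕ → ℝ → ℝ → ℝ)
    (ht : ℝ → ℝ → ℝ) : Prop where
  s_cont : ContinuousOn s (Ioo 0 T)
  h_cont : ContinuousOn (fun q : ℝ × ℝ => h q.1 q.2) (closure (Dom s δ T))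
  pos : ∀ x t, (x, t) ∈ Dom s δ T → 0 < h x t
  zero : ∀ t, 0 < t → t < T → h (s t) t = 0
  d_zero : ∀ x t, (x, t) ∈ Dom s δ T → d 0 x t = h x t
  d_succ : ∀ k, k < 4 → ∀ x t, (x, t) ∈ Dom s δ T →
    HasDerivAt (fun y => d k y t) (d (k + 1) x t) x
  d_cont : ∀ k, k ≤ 4 → ContinuousOn (fun q : ℝ × ℝ => d k q.1 q.2) (Dom s δ T)
  ht_deriv : ∀ x t, (x, t) ∈ Dom s δ T → HasDerivAt (fun τ => h x τ) (ht x t) t
  ht_cont : ContinuousOn (fun q : ℝ × ℝ => ht q.1 q.2) (Dom s δ T)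
  pde : ∀ x t, (x, t) ∈ Dom s δ T →
    HasDerivAt (fun y => h y t ^ n * d 3 y t) (-ht x t) x

/-- The part of `D` within distance `δ₁` of the contact line, for times in `[t₁, t₂]`. -/
def Near (s : ℝ → ℝ) (δ1 t1 t2 : ℝ) : Set (ℝ × ℝ) :=
  {q | t1 ≤ q.2 ∧ q.2 ≤ t2 ∧ s q.2 < q.1 ∧ q.1 < s q.2 + δ1}

/-- (a) Near the contact line `h(·, t)` is nondecreasing up to a constant factor:
`h(x, t) ≤ c h(y, t)` for `x ≤ y` (`c = 1`: nondecreasing in `x`). No bound on the slopes. -/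
def QuasiMonotone (s : ℝ → ℝ) (h : ℝ → ℝ → ℝ) (δ1 t1 t2 : ℝ) : Prop :=
  ∃ c : ℝ, ∀ x y t, (x, t) ∈ Near s δ1 t1 t2 → (y, t) ∈ Near s δ1 t1 t2 → x ≤ y →
    h x t ≤ c * h y t

/-- (b) Near the contact line `|h_x(x, t)| ≤ k(t)` with `k²` integrable in time. -/
def LipschitzL2 (s : ℝ → ℝ) (d : ℕ → ℝ → ℝ → ℝ) (δ1 t1 t2 : ℝ) : Prop :=
  ∃ k : ℝ → ℝ, IntegrableOn (fun t => k t ^ 2) (Icc t1 t2) ∧
    ∀ x t, (x, t) ∈ Near s δ1 t1 t2 → |d 1 x t| ≤ k t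

/-- (c) Near the contact line `h^(n-4) h_x²` is integrable in `(x, t)` (`n = 4`: finite energy). -/
def WeightedEnergy (n : ℝ) (s : ℝ → ℝ) (h : ℝ → ℝ → ℝ) (d : ℕ → ℝ → ℝ → ℝ)
    (δ1 t1 t2 : ℝ) : Prop :=
  IntegrableOn (fun q : ℝ × ℝ => h q.1 q.2 ^ (n - 4) * d 1 q.1 q.2 ^ 2) (Near s δ1 t1 t2)

/-- (d) Near the contact line `h(x, t)^(n-1) ≤ k(t) ∫_{s(t)}^x h(y, t) dy` with `k` integrable in
time, and `h^(n-2) h_x²` is integrable in `(x, t)`. -/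
def MassBound (n : ℝ) (s : ℝ → ℝ) (h : ℝ → ℝ → ℝ) (d : ℕ → ℝ → ℝ → ℝ)
    (δ1 t1 t2 : ℝ) : Prop :=
  (∃ k : ℝ → ℝ, IntegrableOn k (Icc t1 t2) ∧
    ∀ x t, (x, t) ∈ Near s δ1 t1 t2 → h x t ^ (n - 1) ≤ k t * ∫ y in (s t)..x, h y t) ∧
    IntegrableOn (fun q : ℝ × ℝ => h q.1 q.2 ^ (n - 2) * d 1 q.1 q.2 ^ 2) (Near s δ1 t1 t2)

/-- **Finite dissipation pins the contact line.** Let `n ≥ 3` and let `(h, s)` be a classical
solution of the local thin-film problem, positive in `D`, with `∬_D h^n h_xxx² < ∞`. Suppose that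
for all `0 < t₁ ≤ t₂ < T` there is `0 < δ₁ ≤ δ` such that one of (a), (b), (c), (d) holds. Then
`s` is constant on `(0, T)`. -/
theorem result (n δ T : ℝ) (hn : 3 ≤ n) (s : ℝ → ℝ) (h : ℝ → ℝ → ℝ) (d : ℕ → ℝ → ℝ → ℝ)
    (ht : ℝ → ℝ → ℝ) (hsol : Classical n δ T s h d ht)
    (hdiss : IntegrableOn (fun q : ℝ × ℝ => h q.1 q.2 ^ n * d 3 q.1 q.2 ^ 2) (Dom s δ T))
    (htame : ∀ t1 t2 : ℝ, 0 < t1 → t1 ≤ t2 → t2 < T → ∃ δ1 : ℝ, 0 < δ1 ∧ δ1 ≤ δ ∧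
      (QuasiMonotone s h δ1 t1 t2 ∨ LipschitzL2 s d δ1 t1 t2 ∨
        WeightedEnergy n s h d δ1 t1 t2 ∨ MassBound n s h d δ1 t1 t2)) :
    ∃ s0 : ℝ, ∀ t : ℝ, 0 < t → t < T → s t = s0 := by
  have C : Pool.Agent.R217.TF.Classical n δ T s h d ht :=
    ⟨hsol.s_cont, hsol.h_cont, hsol.pos, hsol.zero, hsol.d_zero, hsol.d_succ, hsol.d_cont,
      hsol.ht_deriv, hsol.ht_cont, hsol.pde⟩
  exact Pool.Agent.R217.TF.contact_fixed hn C hdiss htame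

end Pool.Agent.Results.MP_e83d7b_an.TameContactLine
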